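import Mathlib
import Pool.Agent.W897.GA.Main

/-!
# Admissibility in the polymodal provability logic GLP is decidable

`Form` is the set of formulas built from the variables `p_0, p_1, ...`, `⊥`, implication and the
modalities `[n]` (the other connectives are the usual abbreviations), `GLP` is the logic as defined in
the problem, `Admissible φ ψ` says that the rule `φ / ψ` is admissible and `num` is a Gödel numbering of
the formulas, a bijection with `ℕ`.  The set of pairs of numbers of formulas `φ, ψ` such that `φ / ψ`
is admissible is computable.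
-/

set_option autoImplicit false

namespace Pool.Agent.Results.MP_a8f639_lc.AdmissibilityDecidable

/-- Formulas: variables, falsum, implication, and the modalities `[n]`. -/
inductive Form : Type
  | var : ℕ → Form
  | bot : Form
  | imp : Form → Form → Form
  | box : ℕ → Form → Form

namespace Form

/-- Negation. -/
def neg (a : Form) : Form := imp a bot

/-- `⟨n⟩ a := ¬ [n] ¬ a`. -/
def dia (n : ℕ) (a : Form) : Form := neg (box n (neg a))

/-- Simultaneous substitution. -/
def subst (σ : ℕ → Form) : Form → Form
  | var i => σ i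
  | bot => bot
  | imp a b => imp (subst σ a) (subst σ b)
  | box n a => box n (subst σ a)

end Form

open Form

/-- `a` is a propositional tautology: it is true under every boolean valuation, where the variables
and the formulas `[n] b` are treated as atoms. -/
def Taut (a : Form) : Prop :=
  ∀ v : Form → Prop, ¬ v bot → (∀ b c, v (imp b c) ↔ (v b → v c)) → v a

/-- The logic GLP: tautologies, the axiom schemes, modus ponens and necessitation for `[0]`. -/
inductive GLP : Form → Prop
  | taut (a : Form) : Taut a → GLP a
  | dist (n : ℕ) (a b : Form) : GLP (imp (box n (imp a b)) (imp (box n a) (box n b)))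
  | lob (n : ℕ) (a : Form) : GLP (imp (box n (imp (box n a) a)) (box n a))
  | mono (m n : ℕ) (a : Form) : m < n → GLP (imp (box m a) (box n a))
  | diaBox (m n : ℕ) (a : Form) : m < n → GLP (imp (dia m a) (box n (dia m a)))
  | mp (a b : Form) : GLP a → GLP (imp a b) → GLP b
  | nec (a : Form) : GLP a → GLP (box 0 a)

/-- The rule `φ / ψ` is admissible in GLP. -/
def Admissible (φ ψ : Form) : Prop := ∀ σ : ℕ → Form, GLP (φ.subst σ) → GLP (ψ.subst σ)

/-- The Gödel numbering of the formulas. -/
def num : Form → ℕ
  | var i => 3 * i + 1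
  | bot => 0
  | imp a b => 3 * Nat.pair (num a) (num b) + 2
  | box n a => 3 * Nat.pair n (num a) + 3

/-! ### translation to the formulas of the helper files -/

open Pool.Agent.H557R3.GLP (Fm Der IsMCS der_iff)

/-- translation -/
def toFm : Form → Fm ℕ
  | var i => Fm.var i
  | bot => Fm.bot
  | imp a b => Fm.imp (toFm a) (toFm b)
  | box n a => Fm.box n (toFm a)

/-- translation back -/
def ofFm : Fm ℕ → Form
  | Fm.var i => var i
  | Fm.bot => bot
  | Fm.imp a b => imp (ofFm a) (ofFm b)
  | Fm.box n a => box n (ofFm a)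

theorem of_to (a : Form) : ofFm (toFm a) = a := by
  induction a with
  | var i => rfl
  | bot => rfl
  | imp a b iha ihb => rw [toFm, ofFm, iha, ihb]
  | box n a ih => rw [toFm, ofFm, ih]

theorem to_of (a : Fm ℕ) : toFm (ofFm a) = a := by
  induction a with
  | var i => rfl
  | bot => rfl
  | imp a b iha ihb => rw [ofFm, toFm, iha, ihb]
  | box n a ih => rw [ofFm, toFm, ih]

theorem toFm_subst (σ : ℕ → Form) (a : Form) :
    toFm (a.subst σ) = (toFm a).subst fun i => toFm (σ i) := by
  induction a with
  | var i => rfl
  | bot => rfl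
  | imp a b iha ihb =>
    rw [Form.subst, toFm, iha, ihb, toFm, Fm.subst]
  | box n a ih => rw [Form.subst, toFm, ih, toFm, Fm.subst]

theorem num_eq (a : Form) : num a = Pool.Agent.W897.GA.code (toFm a) := by
  induction a with
  | var i => rfl
  | bot => rfl
  | imp a b iha ihb => rw [num, iha, ihb, toFm]; rfl
  | box n a ih => rw [num, ih, toFm]; rfl

theorem der_of_glp {a : Form} (h : GLP a) : Der ∅ (toFm a) := by
  induction h with
  | taut a h =>
    rw [der_iff]
    intro u hu
    exact h (fun x => toFm x ∈ u) hu.nbot fun b c =>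
      Pool.Agent.H557R3.GLP.mem_imp hu (toFm b) (toFm c)
  | dist n a b => exact Der.axK n _ _
  | lob n a => exact Der.axL n _
  | mono m n a h => exact Der.axM m n _ h.le
  | diaBox m n a h => exact Der.axN m n (toFm a) h
  | mp a b _ _ ih1 ih2 => exact Der.mp ih1 ih2
  | nec a _ ih => exact Der.nec 0 ih

theorem glp_of_der {a : Fm ℕ} (h : Der ∅ a) : GLP (ofFm a) := by
  induction h with
  | hyp h => exact absurd h (Set.notMem_empty _)
  | ax1 a b =>
    refine GLP.taut _ fun v h1 h2 => ?_
    simp only [ofFm, h2]
    tauto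
  | ax2 a b c =>
    refine GLP.taut _ fun v h1 h2 => ?_
    simp only [ofFm, h2]
    tauto
  | ax3 a =>
    refine GLP.taut _ fun v h1 h2 => ?_
    simp only [ofFm, h2]
    tauto
  | axK k a b => exact GLP.dist k _ _
  | axL k a => exact GLP.lob k _
  | axM m k a h =>
    rcases h.eq_or_lt with rfl | h
    · refine GLP.taut _ fun v h1 h2 => ?_
      simp only [ofFm, h2]
      tauto
    · exact GLP.mono m k _ h
  | axN m k a h => exact GLP.diaBox m k _ h
  | mp _ _ ih1 ih2 => exact GLP.mp _ _ ih1 ih2
  | @nec k a _ ih =>
    have h1 := GLP.nec _ ih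
    rcases Nat.eq_zero_or_pos k with rfl | h
    · exact h1
    · exact GLP.mp _ _ h1 (GLP.mono 0 k _ h)

theorem glp_iff (a : Form) : GLP a ↔ Der ∅ (toFm a) :=
  ⟨der_of_glp, fun h => by
    have := glp_of_der h
    rwa [of_to] at this⟩

theorem admissible_iff (φ ψ : Form) :
    Admissible φ ψ ↔ Pool.Agent.W897.GA.AdmD (toFm φ) (toFm ψ) := by
  constructor
  · intro h σ h1
    have h2 := h (fun i => ofFm (σ i))
    rw [glp_iff, glp_iff, toFm_subst, toFm_subst] at h2
    simp only [to_of] at h2
    exact h2 h1
  · intro h σ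
    rw [glp_iff, glp_iff, toFm_subst, toFm_subst]
    exact h fun i => toFm (σ i)

theorem num_bijective : Function.Bijective num := by
  have h : num = Pool.Agent.W897.GA.code ∘ toFm := funext num_eq
  rw [h]
  refine Function.Bijective.comp
    ⟨Pool.Agent.W897.GA.code_injective, Pool.Agent.W897.GA.code_surjective⟩ ⟨?_, ?_⟩
  · intro a b hab
    rw [← of_to a, ← of_to b, hab]
  · intro a
    exact ⟨ofFm a, to_of a⟩

/-- **The admissibility problem for GLP is decidable.** -/
theorem result : Function.Bijective num ∧
    ComputablePred fun p : ℕ × ℕ => ∃ φ ψ : Form, num φ = p.1 ∧ num ψ = p.2 ∧ Admissible φ ψ := by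
  refine ⟨num_bijective, Pool.Agent.W897.GA.decidable_admD.of_eq ?_⟩
  rintro ⟨c, d⟩
  constructor
  · rintro ⟨Φ, Ψ, h1, h2, h3⟩
    refine ⟨ofFm Φ, ofFm Ψ, ?_, ?_, ?_⟩
    · rw [num_eq, to_of]; exact h1
    · rw [num_eq, to_of]; exact h2
    · rw [admissible_iff, to_of, to_of]; exact h3
  · rintro ⟨φ, ψ, h1, h2, h3⟩
    exact ⟨toFm φ, toFm ψ, by rw [← num_eq]; exact h1, by rw [← num_eq]; exact h2,
      (admissible_iff φ ψ).1 h3⟩

end Pool.Agent.Results.MP_a8f639_lc.AdmissibilityDecidable
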